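import Pool.Agent.H6.RCQ.Stmts4

/-!
# Project RCQ: tools for the modules K6B, K6D, K6E (connectors, crossing sets, windows)
-/

set_option autoImplicit false

namespace Pool.Agent.H33.RCQ

open Pool.Agent.H39.RC Pool.Agent.H6.RCQ
open Classical

variable {V : Type} {G : SimpleGraph V} {R : Finset V} {x : V} {t : ℕ → V}

/-- `k` is a connector of `w` to `s` -/
def Cn (G : SimpleGraph V) (x w s k : V) : Prop := k ≠ x ∧ G.Adj w k ∧ (k = s ∨ G.Adj k s)

lemma con_cons {S : Set V} {a b : V} (h : a = b ∨ G.Adj b a) (hS : Con G (insert b S)) :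
    Con G (insert a (insert b S)) := by
  rcases h with rfl | h
  · rwa [Set.insert_eq_of_mem (Set.mem_insert _ _)]
  · exact hS.insert (Set.mem_insert _ _) h

lemma mem_U {w : V} : w ∈ U G R x ↔ w ∈ R ∧ w ≠ x ∧ ¬ G.Adj x w := by
  simp [U]

lemma mem_D {w : V} : w ∈ D G R x ↔ w ∈ R ∧ G.Adj x w := by
  simp [D]

lemma U_not_D {w : V} (h : w ∈ U G R x) : w ∉ D G R x := fun h' => (mem_U.1 h).2.2 (mem_D.1 h').2

lemma cn_exists (h : Lf G R) {w s : V} (hw : w ∈ U G R x) (hs : s ∈ D G R x) :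
    ∃ k, Cn G x w s k := by
  obtain ⟨hw1, hw2, hw3⟩ := mem_U.1 hw
  obtain ⟨hs1, hs2⟩ := mem_D.1 hs
  have hne : w ≠ s := by
    rintro rfl
    exact hw3 hs2
  rcases h.lk w hw1 s hs1 hne with h1 | ⟨m, -, h1, h2⟩
  · exact ⟨s, hs2.ne', h1, Or.inl rfl⟩
  · refine ⟨m, ?_, h1, Or.inr h2⟩
    rintro rfl
    exact hw3 h1.symm

lemma cr_swap13 {a b c d : V} (h : Cr G x a b c d) : Cr G x c b a d :=
  fun P Q hP hQ xP xQ h1 h2 h3 h4 => h P Q hP hQ xP xQ h2 h1 h3 h4

lemma cr_swap24 {a b c d : V} (h : Cr G x a b c d) : Cr G x a d c b :=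
  fun P Q hP hQ xP xQ h1 h2 h3 h4 => h P Q hP hQ xP xQ h1 h2 h4 h3

lemma cr_exch {a b c d : V} (h : Cr G x a b c d) : Cr G x b a d c := by
  intro P Q hP hQ xP xQ h1 h2 h3 h4
  rw [Set.inter_comm]
  exact h Q P hQ hP xQ xP h3 h4 h1 h2

/-- the connector of `w` to `a` lies in a set that separates `a` and `b` -/
lemma cross {a b c d w k : V} {Q : Set V} (h : Cr G x a c b d) (hQ : Con G Q) (xQ : x ∉ Q)
    (hc : c ∈ Q) (hd : d ∈ Q) (ha : a ∉ Q) (hb : b ∉ Q) (hw : w ∉ Q) (hk : Cn G x w a k)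
    (hwb : G.Adj w b) (xa : a ≠ x) (xb : b ≠ x) (xw : w ≠ x) : k ∈ Q := by
  obtain ⟨k1, k2, k3⟩ := hk
  have hP : Con G {a, k, w, b} := by
    refine con_cons ?_ (con_cons (Or.inr k2) (con_pair (Or.inr hwb)))
    rcases k3 with e | e
    · exact Or.inl e.symm
    · exact Or.inr e
  have xP : x ∉ ({a, k, w, b} : Set V) := by
    simp only [Set.mem_insert_iff, Set.mem_singleton_iff, not_or]
    exact ⟨xa.symm, k1.symm, xw.symm, xb.symm⟩
  obtain ⟨z, hz, hz'⟩ := h _ _ hP hQ xP xQ (by simp) (by simp) hc hd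
  simp only [Set.mem_insert_iff, Set.mem_singleton_iff] at hz
  rcases hz with rfl | rfl | rfl | rfl
  · exact absurd hz' ha
  · exact hz'
  · exact absurd hz' hw
  · exact absurd hz' hb

/-- the windows: opposite vertices are not seen -/
lemma w6_opp (h : W6 G R x t) {a : V} (ha : a ≠ x) (ha' : a ∉ D G R x) :
    (G.Adj a (t 0) → ¬ G.Adj a (t 3)) ∧ (G.Adj a (t 1) → ¬ G.Adj a (t 4)) ∧
      (G.Adj a (t 2) → ¬ G.Adj a (t 5)) := by
  obtain ⟨m, hm, hw⟩ := h.win a ha ha'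
  refine ⟨?_, ?_, ?_⟩
  · intro h0 h3
    have e0 := hw 0 (by omega) h0
    have e3 := hw 3 (by omega) h3
    omega
  · intro h0 h3
    have e0 := hw 1 (by omega) h0
    have e3 := hw 4 (by omega) h3
    omega
  · intro h0 h3
    have e0 := hw 2 (by omega) h0
    have e3 := hw 5 (by omega) h3
    omega

/-- non-consecutive neighbours of `x` are not adjacent -/
lemma w6_nadj (h : W6 G R x t) {i j : ℕ} (hi : i < 6) (hj : j < 6) (h1 : j ≠ (i + 1) % 6)
    (h2 : i ≠ (j + 1) % 6) : ¬ G.Adj (t i) (t j) := by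
  intro hij
  rcases h.adj i hi j hj hij with e | e
  · exact h1 e
  · exact h2 e

lemma w6_t_mem (h : W6 G R x t) {i : ℕ} (hi : i < 6) : t i ∈ D G R x := h.circ.mem i hi

lemma w6_t_ne (h : W6 G R x t) {i j : ℕ} (hi : i < 6) (hj : j < 6) (hij : i ≠ j) : t i ≠ t j :=
  fun e => hij (h.circ.inj i hi j hj e)

lemma w6_x_ne (h : W6 G R x t) {i : ℕ} (hi : i < 6) : t i ≠ x :=
  ((mem_D.1 (w6_t_mem h hi)).2).ne'

lemma ne_t_of_not_D (h : W6 G R x t) {w : V} (hw : w ∉ D G R x) {i : ℕ} (hi : i < 6) :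
    w ≠ t i := by
  rintro rfl
  exact hw (w6_t_mem h hi)

lemma u_ge_nine (h : W6 G R x t) : 9 ≤ (U G R x).card := by
  have h1 : R ⊆ (D G R x ∪ U G R x) ∪ {x} := by
    intro r hr
    simp only [Finset.mem_union, Finset.mem_singleton, mem_U, mem_D]
    by_cases e : r = x
    · exact Or.inr e
    · by_cases e' : G.Adj x r
      · exact Or.inl (Or.inl ⟨hr, e'⟩)
      · exact Or.inl (Or.inr ⟨hr, e, e'⟩)
  have h2 := (Finset.card_le_card h1).trans ((Finset.card_union_le _ _).trans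
    (Nat.add_le_add_right (Finset.card_union_le _ _) _))
  have h3 := h.s6.card
  have h4 := h.s6.deg x
  rw [Finset.card_singleton] at h2
  omega

lemma exists_w (h : W6 G R x t) (B : Finset V) (hB : B.card ≤ 8) : ∃ w ∈ U G R x, w ∉ B :=
  Finset.exists_mem_notMem_of_card_lt_card (lt_of_le_of_lt hB (u_ge_nine h))

/-- few neighbours of `c` in `U` -/
lemma filt (h : W6 G R x t) {c : V} (S : Finset V) (hS : S ⊆ D G R x)
    (hc : ∀ s ∈ S, G.Adj c s) : ((U G R x).filter (fun w => G.Adj c w)).card + S.card ≤ 6 := by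
  have h1 : (U G R x).filter (fun w => G.Adj c w) ∪ S ⊆ D G R c := by
    intro r hr
    rw [Finset.mem_union, Finset.mem_filter] at hr
    rw [mem_D]
    rcases hr with hr | hr
    · exact ⟨(mem_U.1 hr.1).1, hr.2⟩
    · exact ⟨(mem_D.1 (hS hr)).1, hc r hr⟩
  have h2 : Disjoint ((U G R x).filter (fun w => G.Adj c w)) S := by
    rw [Finset.disjoint_left]
    intro r hr hr'
    exact U_not_D (Finset.mem_filter.1 hr).1 (hS hr')
  have h3 := Finset.card_le_card h1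
  rw [Finset.card_union_of_disjoint h2] at h3
  exact h3.trans (h.s6.deg c)

lemma filt3 (h : W6 G R x t) {c : V} {i j k : ℕ} (hi : i < 6) (hj : j < 6) (hk : k < 6)
    (hij : i ≠ j) (hik : i ≠ k) (hjk : j ≠ k) (h1 : G.Adj c (t i)) (h2 : G.Adj c (t j))
    (h3 : G.Adj c (t k)) : ((U G R x).filter (fun w => G.Adj c w)).card ≤ 3 := by
  have h4 := filt h (c := c) {t i, t j, t k} (by
    intro s hs
    simp only [Finset.mem_insert, Finset.mem_singleton] at hs
    rcases hs with rfl | rfl | rfl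
    · exact w6_t_mem h hi
    · exact w6_t_mem h hj
    · exact w6_t_mem h hk) (by
    intro s hs
    simp only [Finset.mem_insert, Finset.mem_singleton] at hs
    rcases hs with rfl | rfl | rfl
    · exact h1
    · exact h2
    · exact h3)
  rw [Finset.card_eq_three.2 ⟨t i, t j, t k, w6_t_ne h hi hj hij, w6_t_ne h hi hk hik,
    w6_t_ne h hj hk hjk, rfl⟩] at h4
  omega

lemma filt2 (h : W6 G R x t) {c : V} {i j : ℕ} (hi : i < 6) (hj : j < 6)
    (hij : i ≠ j) (h1 : G.Adj c (t i)) (h2 : G.Adj c (t j)) :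
    ((U G R x).filter (fun w => G.Adj c w)).card ≤ 4 := by
  have h4 := filt h (c := c) {t i, t j} (by
    intro s hs
    simp only [Finset.mem_insert, Finset.mem_singleton] at hs
    rcases hs with rfl | rfl
    · exact w6_t_mem h hi
    · exact w6_t_mem h hj) (by
    intro s hs
    simp only [Finset.mem_insert, Finset.mem_singleton] at hs
    rcases hs with rfl | rfl
    · exact h1
    · exact h2)
  rw [Finset.card_pair (w6_t_ne h hi hj hij)] at h4
  omega

/-- the isolation clause at `t 1` -/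
lemma iso1 (h : W6 G R x t) {c : V} (hc : c ≠ x) (hc' : c ∉ D G R x) (h0 : G.Adj c (t 0))
    (h2 : G.Adj c (t 2)) : (∀ r ∈ R, G.Adj r (t 1) → r = x ∨ r = c ∨ r = t 0 ∨ r = t 2) ∧
      ∀ w ∈ U G R x, w ≠ c → G.Adj w (t 0) ∨ G.Adj w (t 2) ∨ (G.Adj w c ∧ G.Adj c (t 1)) :=
  ⟨(h.iso c hc hc' 0 (by omega) h0 h2).2.2.1, (h.iso c hc hc' 0 (by omega) h0 h2).2.2.2.2⟩

/-- the isolation clause at `t 4` -/
lemma iso4 (h : W6 G R x t) {c : V} (hc : c ≠ x) (hc' : c ∉ D G R x) (h0 : G.Adj c (t 3))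
    (h2 : G.Adj c (t 5)) : (∀ r ∈ R, G.Adj r (t 4) → r = x ∨ r = c ∨ r = t 3 ∨ r = t 5) ∧
      ∀ w ∈ U G R x, w ≠ c → G.Adj w (t 3) ∨ G.Adj w (t 5) ∨ (G.Adj w c ∧ G.Adj c (t 4)) :=
  ⟨(h.iso c hc hc' 3 (by omega) h0 h2).2.2.1, (h.iso c hc hc' 3 (by omega) h0 h2).2.2.2.2⟩

end Pool.Agent.H33.RCQ
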