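import Pool.Agent.H33.RCQ.Base

/-!
# Project RCQ: module K6B (two hubs)
-/

set_option autoImplicit false

namespace Pool.Agent.H33.RCQ.K6B

open Pool.Agent.H39.RC Pool.Agent.H6.RCQ Pool.Agent.H33.RCQ
open Classical

variable {V : Type} {G : SimpleGraph V} {R : Finset V} {x : V} {t : ℕ → V}

/-- one of the two symmetric cases -/
lemma side {u v c c' w a b a' b' : V} (hcr : Cr G x a a' b b') (wa : ¬ G.Adj w a)
    (wb : G.Adj w b) (xa : a ≠ x) (xb : b ≠ x) (xa' : a' ≠ x) (xb' : b' ≠ x) (xw : w ≠ x)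
    (xu : u ≠ x) (xv : v ≠ x) (xc : c ≠ x) (xc' : c' ≠ x) (aa' : a ≠ a') (ab' : a ≠ b')
    (ba' : b ≠ a') (bb' : b ≠ b') (aua' : ¬ G.Adj a' a) (wb' : ¬ G.Adj w b')
    (ca' : G.Adj c a') (cb' : G.Adj c' b') (cu : G.Adj c u) (cv : G.Adj c v)
    (cu' : G.Adj c' u) (cv' : G.Adj c' v) (huv : u ≠ v)
    (au : a ≠ u) (av : a ≠ v) (ac : a ≠ c) (ac' : a ≠ c')
    (bu : b ≠ u) (bv : b ≠ v) (bc : b ≠ c) (bc' : b ≠ c')
    (wu : w ≠ u) (wv : w ≠ v) (wc : w ≠ c) (wc' : w ≠ c') (wa' : w ≠ a') (wb'' : w ≠ b')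
    (nwc : ¬ G.Adj w c) (nwc' : ¬ G.Adj w c') {k : V} (hk : Cn G x w a k) : False := by
  have key : ∀ z, z ≠ x → G.Adj c z → G.Adj c' z → a ≠ z → b ≠ z → w ≠ z → k = z := by
    intro z zx cz cz' az bz wz
    have hQ : Con G {a', c, z, c', b'} :=
      con_cons (Or.inr ca') (con_cons (Or.inr cz.symm) (con_cons (Or.inr cz')
        (con_pair (Or.inr cb'))))
    have xQ : x ∉ ({a', c, z, c', b'} : Set V) := by
      simp only [Set.mem_insert_iff, Set.mem_singleton_iff, not_or]
      exact ⟨xa'.symm, xc.symm, zx.symm, xc'.symm, xb'.symm⟩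
    have aQ : a ∉ ({a', c, z, c', b'} : Set V) := by
      simp only [Set.mem_insert_iff, Set.mem_singleton_iff, not_or]
      exact ⟨aa', ac, az, ac', ab'⟩
    have bQ : b ∉ ({a', c, z, c', b'} : Set V) := by
      simp only [Set.mem_insert_iff, Set.mem_singleton_iff, not_or]
      exact ⟨ba', bc, bz, bc', bb'⟩
    have wQ : w ∉ ({a', c, z, c', b'} : Set V) := by
      simp only [Set.mem_insert_iff, Set.mem_singleton_iff, not_or]
      exact ⟨wa', wc, wz, wc', wb''⟩
    have h := cross hcr hQ xQ (by simp) (by simp) aQ bQ wQ hk wb xa xb xw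
    simp only [Set.mem_insert_iff, Set.mem_singleton_iff] at h
    obtain ⟨k1, k2, k3⟩ := hk
    rcases h with rfl | rfl | rfl | rfl | rfl
    · rcases k3 with e | e
      · exact absurd e aa'.symm
      · exact absurd e aua'
    · exact absurd k2 nwc
    · rfl
    · exact absurd k2 nwc'
    · exact absurd k2 wb'
  exact huv ((key u xu cu cu' au bu wu).symm.trans (key v xv cv cv' av bv wv))

/-- K6B: two hubs -/
theorem k6b : K6BStmt := by
  intro V G R x t u v c c' hK hc hc'
  have hW := hK.toW6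
  obtain ⟨hu1, hu2, hu3⟩ := mem_U.1 hK.mu
  obtain ⟨hv1, hv2, hv3⟩ := mem_U.1 hK.mv
  obtain ⟨w, hw, hwB⟩ := exists_w hW ((U G R x).filter (fun w => G.Adj c w) ∪
    (U G R x).filter (fun w => G.Adj c' w) ∪ {c, c'}) (by
      have h1 := filt3 hW (c := c) (i := 0) (j := 1) (k := 2) (by omega) (by omega) (by omega)
        (by omega) (by omega) (by omega) hc.ca hc.cb hc.cd
      have h2 := filt3 hW (c := c') (i := 3) (j := 4) (k := 5) (by omega) (by omega) (by omega)
        (by omega) (by omega) (by omega) hc'.ca hc'.cb hc'.cd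
      have h3 := Finset.card_union_le ((U G R x).filter (fun w => G.Adj c w) ∪
        (U G R x).filter (fun w => G.Adj c' w)) {c, c'}
      have h4 := Finset.card_union_le ((U G R x).filter (fun w => G.Adj c w))
        ((U G R x).filter (fun w => G.Adj c' w))
      have h5 : ({c, c'} : Finset V).card ≤ 2 := Finset.card_le_two
      omega)
  simp only [Finset.mem_union, Finset.mem_filter, Finset.mem_insert, Finset.mem_singleton,
    not_or, not_and] at hwB
  obtain ⟨⟨hwc, hwc'⟩, wc, wc'⟩ := hwB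
  have nwc : ¬ G.Adj w c := fun h => hwc hw h.symm
  have nwc' : ¬ G.Adj w c' := fun h => hwc' hw h.symm
  have wu : w ≠ u := by
    rintro rfl
    exact nwc hc.cu.symm
  have wv : w ≠ v := by
    rintro rfl
    exact nwc hc.cv.symm
  obtain ⟨hw1, hw2, hw3⟩ := mem_U.1 hw
  have hwD := U_not_D hw
  have huD := U_not_D hK.mu
  have hvD := U_not_D hK.mv
  obtain ⟨o0, o1, o2⟩ := w6_opp hW hw2 hwD
  have i1 := (iso1 hW hc.ne hc.out hc.ca hc.cd).2 w hw wc
  have i4 := (iso4 hW hc'.ne hc'.out hc'.ca hc'.cd).2 w hw wc'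
  have hcr : Cr G x (t 0) (t 2) (t 3) (t 5) := hW.circ.cr 0 2 3 5 (by omega) (by omega) (by omega)
    (by omega)
  have j1 : G.Adj w (t 0) ∨ G.Adj w (t 2) := by
    rcases i1 with h | h | h
    · exact Or.inl h
    · exact Or.inr h
    · exact absurd h.1 nwc
  have j4 : G.Adj w (t 3) ∨ G.Adj w (t 5) := by
    rcases i4 with h | h | h
    · exact Or.inl h
    · exact Or.inr h
    · exact absurd h.1 nwc'
  have n02 : ¬ G.Adj (t 0) (t 2) := w6_nadj hW (by omega) (by omega) (by omega) (by omega)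
  by_cases h0 : G.Adj w (t 0)
  · have h3 : ¬ G.Adj w (t 3) := o0 h0
    have h5 : G.Adj w (t 5) := j4.resolve_left h3
    have h2 : ¬ G.Adj w (t 2) := fun h => o2 h h5
    obtain ⟨k, hk⟩ := cn_exists hW.s6.lf hw (w6_t_mem hW (i := 2) (by omega))
    have hcr' : Cr G x (t 2) (t 0) (t 5) (t 3) := cr_exch hcr
    exact side (c := c) (c' := c') (u := u) (v := v) hcr' h2 h5 (w6_x_ne hW (by omega))
      (w6_x_ne hW (by omega)) (w6_x_ne hW (by omega)) (w6_x_ne hW (by omega)) hw2 hu2 hv2 hc.ne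
      hc'.ne (w6_t_ne hW (by omega) (by omega) (by omega))
      (w6_t_ne hW (by omega) (by omega) (by omega))
      (w6_t_ne hW (by omega) (by omega) (by omega)) (w6_t_ne hW (by omega) (by omega) (by omega))
      n02 h3 hc.ca hc'.ca hc.cu hc.cv hc'.cu hc'.cv hK.nuv
      (ne_t_of_not_D hW huD (by omega)).symm (ne_t_of_not_D hW hvD (by omega)).symm
      (ne_t_of_not_D hW hc.out (by omega)).symm (ne_t_of_not_D hW hc'.out (by omega)).symm
      (ne_t_of_not_D hW huD (by omega)).symm (ne_t_of_not_D hW hvD (by omega)).symm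
      (ne_t_of_not_D hW hc.out (by omega)).symm (ne_t_of_not_D hW hc'.out (by omega)).symm
      wu wv wc wc' (ne_t_of_not_D hW hwD (by omega)) (ne_t_of_not_D hW hwD (by omega))
      nwc nwc' hk
  · have h2 : G.Adj w (t 2) := j1.resolve_left h0
    have h5 : ¬ G.Adj w (t 5) := o2 h2
    have h3 : G.Adj w (t 3) := j4.resolve_right h5
    obtain ⟨k, hk⟩ := cn_exists hW.s6.lf hw (w6_t_mem hW (i := 0) (by omega))
    exact side (c := c) (c' := c') (u := u) (v := v) hcr h0 h3 (w6_x_ne hW (by omega))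
      (w6_x_ne hW (by omega)) (w6_x_ne hW (by omega)) (w6_x_ne hW (by omega)) hw2 hu2 hv2 hc.ne
      hc'.ne (w6_t_ne hW (by omega) (by omega) (by omega))
      (w6_t_ne hW (by omega) (by omega) (by omega))
      (w6_t_ne hW (by omega) (by omega) (by omega)) (w6_t_ne hW (by omega) (by omega) (by omega))
      (fun h => n02 h.symm) h5 hc.cd hc'.cd hc.cu hc.cv hc'.cu hc'.cv hK.nuv
      (ne_t_of_not_D hW huD (by omega)).symm (ne_t_of_not_D hW hvD (by omega)).symm
      (ne_t_of_not_D hW hc.out (by omega)).symm (ne_t_of_not_D hW hc'.out (by omega)).symm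
      (ne_t_of_not_D hW huD (by omega)).symm (ne_t_of_not_D hW hvD (by omega)).symm
      (ne_t_of_not_D hW hc.out (by omega)).symm (ne_t_of_not_D hW hc'.out (by omega)).symm
      wu wv wc wc' (ne_t_of_not_D hW hwD (by omega)) (ne_t_of_not_D hW hwD (by omega))
      nwc nwc' hk

end Pool.Agent.H33.RCQ.K6B
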