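import Pool.Agent.H33.RCQ.Base

/-!
# Project RCQ: module K6D (one hub, the other centre adjacent to `u` and `v`)
-/

set_option autoImplicit false

namespace Pool.Agent.H33.RCQ.K6D

open Pool.Agent.H39.RC Pool.Agent.H6.RCQ Pool.Agent.H33.RCQ
open Classical

variable {V : Type} {G : SimpleGraph V} {R : Finset V} {x : V} {t : ℕ → V}

/-- one of the two symmetric cases: `w ~ b`, `k` a connector of `w` to `a`; `a, b = t 0, t 2` or
`t 2, t 0`; `p = t 1`, `q = t 4` -/
lemma side {u v c w a b p q : V} (hcr : Cr G x a p b q)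
    (wb : G.Adj w b) (xa : a ≠ x) (xb : b ≠ x) (xp : p ≠ x) (xq : q ≠ x) (xw : w ≠ x)
    (xu : u ≠ x) (xv : v ≠ x) (xc : c ≠ x) (ap : a ≠ p) (aq : a ≠ q)
    (bp : b ≠ p) (bq : b ≠ q) (wp : ¬ G.Adj w p) (wq : ¬ G.Adj w q)
    (cp : G.Adj c p) (cu : G.Adj c u) (cv : G.Adj c v)
    (uq : G.Adj u q) (vq : G.Adj v q) (huv : u ≠ v)
    (au : a ≠ u) (av : a ≠ v) (ac : a ≠ c) (bu : b ≠ u) (bv : b ≠ v) (bc : b ≠ c)
    (wu : w ≠ u) (wv : w ≠ v) (wc : w ≠ c) (wp' : w ≠ p) (wq' : w ≠ q)
    (nwc : ¬ G.Adj w c) {k : V} (hk : Cn G x w a k) : False := by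
  have key : ∀ z, z ≠ x → G.Adj c z → G.Adj z q → a ≠ z → b ≠ z → w ≠ z → k = z := by
    intro z zx cz zq az bz wz
    have hQ : Con G {p, c, z, q} :=
      con_cons (Or.inr cp) (con_cons (Or.inr cz.symm) (con_pair (Or.inr zq)))
    have xQ : x ∉ ({p, c, z, q} : Set V) := by
      simp only [Set.mem_insert_iff, Set.mem_singleton_iff, not_or]
      exact ⟨xp.symm, xc.symm, zx.symm, xq.symm⟩
    have aQ : a ∉ ({p, c, z, q} : Set V) := by
      simp only [Set.mem_insert_iff, Set.mem_singleton_iff, not_or]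
      exact ⟨ap, ac, az, aq⟩
    have bQ : b ∉ ({p, c, z, q} : Set V) := by
      simp only [Set.mem_insert_iff, Set.mem_singleton_iff, not_or]
      exact ⟨bp, bc, bz, bq⟩
    have wQ : w ∉ ({p, c, z, q} : Set V) := by
      simp only [Set.mem_insert_iff, Set.mem_singleton_iff, not_or]
      exact ⟨wp', wc, wz, wq'⟩
    have h := cross hcr hQ xQ (by simp) (by simp) aQ bQ wQ hk wb xa xb xw
    simp only [Set.mem_insert_iff, Set.mem_singleton_iff] at h
    obtain ⟨k1, k2, k3⟩ := hk
    rcases h with rfl | rfl | rfl | rfl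
    · exact absurd k2 wp
    · exact absurd k2 nwc
    · rfl
    · exact absurd k2 wq
  exact huv ((key u xu cu uq au bu wu).symm.trans (key v xv cv vq av bv wv))

/-- K6D: one hub, the other centre adjacent to `u` and `v` -/
theorem k6d : K6DStmt := by
  intro V G R x t u v c hK hc hu4 hv4
  have hW := hK.toW6
  obtain ⟨hu1, hu2, hu3⟩ := mem_U.1 hK.mu
  obtain ⟨hv1, hv2, hv3⟩ := mem_U.1 hK.mv
  obtain ⟨w, hw, hwB⟩ := exists_w hW ((U G R x).filter (fun w => G.Adj c w) ∪
    (U G R x).filter (fun w => G.Adj (t 4) w) ∪ {c}) (by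
      have h1 := filt3 hW (c := c) (i := 0) (j := 1) (k := 2) (by omega) (by omega) (by omega)
        (by omega) (by omega) (by omega) hc.ca hc.cb hc.cd
      have h2 := filt2 hW (c := t 4) (i := 3) (j := 5) (by omega) (by omega)
        (by omega) hK.c43 hK.c45
      have h3 := Finset.card_union_le ((U G R x).filter (fun w => G.Adj c w) ∪
        (U G R x).filter (fun w => G.Adj (t 4) w)) {c}
      have h4 := Finset.card_union_le ((U G R x).filter (fun w => G.Adj c w))
        ((U G R x).filter (fun w => G.Adj (t 4) w))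
      have h5 : ({c} : Finset V).card = 1 := Finset.card_singleton c
      omega)
  simp only [Finset.mem_union, Finset.mem_filter, Finset.mem_singleton,
    not_or, not_and] at hwB
  obtain ⟨⟨hwc, hwc'⟩, wc⟩ := hwB
  have nwc : ¬ G.Adj w c := fun h => hwc hw h.symm
  have nw4 : ¬ G.Adj w (t 4) := fun h => hwc' hw h.symm
  have wu : w ≠ u := by
    rintro rfl
    exact nwc hc.cu.symm
  have wv : w ≠ v := by
    rintro rfl
    exact nwc hc.cv.symm
  obtain ⟨hw1, hw2, hw3⟩ := mem_U.1 hw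
  have hwD := U_not_D hw
  have huD := U_not_D hK.mu
  have hvD := U_not_D hK.mv
  have i1 := (iso1 hW hc.ne hc.out hc.ca hc.cd).2 w hw wc
  have hcr : Cr G x (t 0) (t 1) (t 2) (t 4) := hW.circ.cr 0 1 2 4 (by omega) (by omega) (by omega)
    (by omega)
  have j1 : G.Adj w (t 0) ∨ G.Adj w (t 2) := by
    rcases i1 with h | h | h
    · exact Or.inl h
    · exact Or.inr h
    · exact absurd h.1 nwc
  have nw1 : ¬ G.Adj w (t 1) := by
    intro h
    rcases (iso1 hW hc.ne hc.out hc.ca hc.cd).1 w hw1 h with e | e | e | e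
    · exact hw2 e
    · exact wc e
    · exact ne_t_of_not_D hW hwD (by omega) e
    · exact ne_t_of_not_D hW hwD (by omega) e
  rcases j1 with h0 | h2
  · obtain ⟨k, hk⟩ := cn_exists hW.s6.lf hw (w6_t_mem hW (i := 2) (by omega))
    exact side (c := c) (u := u) (v := v) (cr_swap13 hcr) h0 (w6_x_ne hW (by omega))
      (w6_x_ne hW (by omega)) (w6_x_ne hW (by omega)) (w6_x_ne hW (by omega)) hw2 hu2 hv2 hc.ne
      (w6_t_ne hW (by omega) (by omega) (by omega))
      (w6_t_ne hW (by omega) (by omega) (by omega))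
      (w6_t_ne hW (by omega) (by omega) (by omega)) (w6_t_ne hW (by omega) (by omega) (by omega))
      nw1 nw4 hc.cb hc.cu hc.cv hu4 hv4 hK.nuv
      (ne_t_of_not_D hW huD (by omega)).symm (ne_t_of_not_D hW hvD (by omega)).symm
      (ne_t_of_not_D hW hc.out (by omega)).symm
      (ne_t_of_not_D hW huD (by omega)).symm (ne_t_of_not_D hW hvD (by omega)).symm
      (ne_t_of_not_D hW hc.out (by omega)).symm
      wu wv wc (ne_t_of_not_D hW hwD (by omega)) (ne_t_of_not_D hW hwD (by omega))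
      nwc hk
  · obtain ⟨k, hk⟩ := cn_exists hW.s6.lf hw (w6_t_mem hW (i := 0) (by omega))
    exact side (c := c) (u := u) (v := v) hcr h2 (w6_x_ne hW (by omega))
      (w6_x_ne hW (by omega)) (w6_x_ne hW (by omega)) (w6_x_ne hW (by omega)) hw2 hu2 hv2 hc.ne
      (w6_t_ne hW (by omega) (by omega) (by omega))
      (w6_t_ne hW (by omega) (by omega) (by omega))
      (w6_t_ne hW (by omega) (by omega) (by omega)) (w6_t_ne hW (by omega) (by omega) (by omega))
      nw1 nw4 hc.cb hc.cu hc.cv hu4 hv4 hK.nuv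
      (ne_t_of_not_D hW huD (by omega)).symm (ne_t_of_not_D hW hvD (by omega)).symm
      (ne_t_of_not_D hW hc.out (by omega)).symm
      (ne_t_of_not_D hW huD (by omega)).symm (ne_t_of_not_D hW hvD (by omega)).symm
      (ne_t_of_not_D hW hc.out (by omega)).symm
      wu wv wc (ne_t_of_not_D hW hwD (by omega)) (ne_t_of_not_D hW hwD (by omega))
      nwc hk

end Pool.Agent.H33.RCQ.K6D
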