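import Pool.Agent.H33.RCQ.Base

/-!
# Project RCQ: module K6E (one hub, the other centre bad)
-/

set_option autoImplicit false

namespace Pool.Agent.H33.RCQ.K6E

open Pool.Agent.H39.RC Pool.Agent.H6.RCQ Pool.Agent.H33.RCQ
open Classical

variable {V : Type} {G : SimpleGraph V} {R : Finset V} {x : V} {t : ℕ → V}

lemma k6_swap {u v : V} (h : K6 G R x t u v) : K6 G R x t v u :=
  { h.toW6 with
    c10 := h.c10
    c12 := h.c12
    c43 := h.c43
    c45 := h.c45
    mu := h.mv
    mv := h.mu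
    nuv := h.nuv.symm
    auv := fun e => h.auv e.symm }

lemma hub_swap {u v c a b d : V} (h : Hub G R x u v c a b d) : Hub G R x v u c a b d :=
  ⟨h.ne, h.out, h.cv, h.cu, h.ca, h.cb, h.cd⟩

lemma bad_swap {u v a : V} (h : Bad G x u v a) : Bad G x v u a :=
  fun c hc h1 h2 => h c hc h2 h1

/-- a connector is adjacent or equal to its end -/
lemma bad_cn {u v a k : V} (hB : Bad G x u v a) (hk : Cn G x u a k) : ¬ G.Adj v k := by
  intro h
  exact hB k hk.1 hk.2.1 h hk.2.2

/-- `t 1` is not adjacent to the vertices of `U` other than `c` -/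
lemma not_t1 {u v c : V} (hW : W6 G R x t) (hc : Hub G R x u v c (t 0) (t 1) (t 2)) {w : V}
    (hw : w ∈ U G R x) (wc : w ≠ c) : ¬ G.Adj w (t 1) := by
  intro h
  obtain ⟨hw1, hw2, hw3⟩ := mem_U.1 hw
  have hwD := U_not_D hw
  rcases (iso1 hW hc.ne hc.out hc.ca hc.cd).1 w hw1 h with e | e | e | e
  · exact hw2 e
  · exact wc e
  · exact ne_t_of_not_D hW hwD (by omega) e
  · exact ne_t_of_not_D hW hwD (by omega) e

/-- neither `u` nor `v` is adjacent to `t 4` -/
lemma not_t4 {u v c : V} (hK : K6 G R x t u v) (hc : Hub G R x u v c (t 0) (t 1) (t 2))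
    (hB : Bad G x u v (t 4)) : ¬ G.Adj v (t 4) := by
  intro v4
  have hW := hK.toW6
  obtain ⟨hu1, hu2, hu3⟩ := mem_U.1 hK.mu
  obtain ⟨hv1, hv2, hv3⟩ := mem_U.1 hK.mv
  have huD := U_not_D hK.mu
  have hvD := U_not_D hK.mv
  obtain ⟨g3, hg3⟩ := cn_exists hW.s6.lf hK.mu (w6_t_mem hW (i := 3) (by omega))
  obtain ⟨g5, hg5⟩ := cn_exists hW.s6.lf hK.mu (w6_t_mem hW (i := 5) (by omega))
  have hcr : Cr G x (t 1) (t 3) (t 4) (t 5) := hW.circ.cr 1 3 4 5 (by omega) (by omega) (by omega)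
    (by omega)
  have hP : Con G {t 1, c, v, t 4} :=
    con_cons (Or.inr hc.cb) (con_cons (Or.inr hc.cv.symm) (con_pair (Or.inr v4)))
  have hQ : Con G {t 3, g3, u, g5, t 5} := by
    refine con_cons ?_ (con_cons (Or.inr hg3.2.1) (con_cons (Or.inr hg5.2.1.symm) (con_pair ?_)))
    · rcases hg3.2.2 with e | e
      · exact Or.inl e.symm
      · exact Or.inr e
    · rcases hg5.2.2 with e | e
      · exact Or.inl e
      · exact Or.inr e
  have xP : x ∉ ({t 1, c, v, t 4} : Set V) := by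
    simp only [Set.mem_insert_iff, Set.mem_singleton_iff, not_or]
    exact ⟨(w6_x_ne hW (by omega)).symm, hc.ne.symm, hv2.symm, (w6_x_ne hW (by omega)).symm⟩
  have xQ : x ∉ ({t 3, g3, u, g5, t 5} : Set V) := by
    simp only [Set.mem_insert_iff, Set.mem_singleton_iff, not_or]
    exact ⟨(w6_x_ne hW (by omega)).symm, hg3.1.symm, hu2.symm, hg5.1.symm,
      (w6_x_ne hW (by omega)).symm⟩
  obtain ⟨z, hz, hz'⟩ := hcr _ _ hP hQ xP xQ (by simp) (by simp) (by simp) (by simp)
  have uc : u ≠ c := hc.cu.ne'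
  have vc : v ≠ c := hc.cv.ne'
  obtain ⟨o0, o1, o2⟩ := w6_opp hW hc.ne hc.out
  have c3 : ¬ G.Adj c (t 3) := o0 hc.ca
  have c5 : ¬ G.Adj c (t 5) := o2 hc.cd
  have u1 : ¬ G.Adj u (t 1) := not_t1 hW hc hK.mu uc
  have u4 : ¬ G.Adj u (t 4) := fun h => hB (t 4) (w6_x_ne hW (by omega)) h v4 (Or.inl rfl)
  have step : ∀ g s : V, Cn G x u s g → ¬ G.Adj c s → c ≠ s → z = g → False := by
    intro g s hg cs cs' e
    subst e
    simp only [Set.mem_insert_iff, Set.mem_singleton_iff] at hz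
    rcases hz with rfl | rfl | rfl | rfl
    · exact u1 hg.2.1
    · rcases hg.2.2 with e | e
      · exact cs' e
      · exact cs e
    · exact hK.auv hg.2.1
    · exact u4 hg.2.1
  have notin : ∀ s : V, s ≠ t 1 → s ≠ c → s ≠ v → s ≠ t 4 → z ≠ s := by
    rintro s h1 h2 h3 h4 rfl
    simp only [Set.mem_insert_iff, Set.mem_singleton_iff] at hz
    rcases hz with e | e | e | e
    · exact h1 e
    · exact h2 e
    · exact h3 e
    · exact h4 e
  rw [Set.mem_insert_iff, Set.mem_insert_iff, Set.mem_insert_iff, Set.mem_insert_iff,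
    Set.mem_singleton_iff] at hz'
  rcases hz' with e | e | e | e | e
  · exact notin (t 3) (w6_t_ne hW (by omega) (by omega) (by omega))
      (ne_t_of_not_D hW hc.out (by omega)).symm (ne_t_of_not_D hW hvD (by omega)).symm
      (w6_t_ne hW (by omega) (by omega) (by omega)) e
  · exact step g3 (t 3) hg3 c3 (ne_t_of_not_D hW hc.out (by omega)) e
  · exact notin u (ne_t_of_not_D hW huD (by omega)) uc hK.nuv (ne_t_of_not_D hW huD (by omega)) e
  · exact step g5 (t 5) hg5 c5 (ne_t_of_not_D hW hc.out (by omega)) e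
  · exact notin (t 5) (w6_t_ne hW (by omega) (by omega) (by omega))
      (ne_t_of_not_D hW hc.out (by omega)).symm (ne_t_of_not_D hW hvD (by omega)).symm
      (w6_t_ne hW (by omega) (by omega) (by omega)) e

/-- `u` is adjacent to `t 3` or to `t 5` -/
lemma t3_or_t5 {u v c : V} (hK : K6 G R x t u v) (hc : Hub G R x u v c (t 0) (t 1) (t 2))
    (hB : Bad G x u v (t 4)) : G.Adj u (t 3) ∨ G.Adj u (t 5) := by
  have hW := hK.toW6
  obtain ⟨hu1, hu2, hu3⟩ := mem_U.1 hK.mu
  obtain ⟨hv1, hv2, hv3⟩ := mem_U.1 hK.mv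
  have huD := U_not_D hK.mu
  have hvD := U_not_D hK.mv
  have v4 := not_t4 hK hc hB
  obtain ⟨p, hp⟩ := cn_exists hW.s6.lf hK.mu (w6_t_mem hW (i := 4) (by omega))
  obtain ⟨h3, hh3⟩ := cn_exists hW.s6.lf hK.mv (w6_t_mem hW (i := 3) (by omega))
  obtain ⟨h5, hh5⟩ := cn_exists hW.s6.lf hK.mv (w6_t_mem hW (i := 5) (by omega))
  have hcr : Cr G x (t 1) (t 3) (t 4) (t 5) := hW.circ.cr 1 3 4 5 (by omega) (by omega) (by omega)
    (by omega)
  have hP : Con G {t 1, c, u, p, t 4} := by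
    refine con_cons (Or.inr hc.cb) (con_cons (Or.inr hc.cu.symm) (con_cons (Or.inr hp.2.1.symm)
      (con_pair ?_)))
    rcases hp.2.2 with e | e
    · exact Or.inl e
    · exact Or.inr e
  have hQ : Con G {t 3, h3, v, h5, t 5} := by
    refine con_cons ?_ (con_cons (Or.inr hh3.2.1) (con_cons (Or.inr hh5.2.1.symm) (con_pair ?_)))
    · rcases hh3.2.2 with e | e
      · exact Or.inl e.symm
      · exact Or.inr e
    · rcases hh5.2.2 with e | e
      · exact Or.inl e
      · exact Or.inr e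
  have xP : x ∉ ({t 1, c, u, p, t 4} : Set V) := by
    simp only [Set.mem_insert_iff, Set.mem_singleton_iff, not_or]
    exact ⟨(w6_x_ne hW (by omega)).symm, hc.ne.symm, hu2.symm, hp.1.symm,
      (w6_x_ne hW (by omega)).symm⟩
  have xQ : x ∉ ({t 3, h3, v, h5, t 5} : Set V) := by
    simp only [Set.mem_insert_iff, Set.mem_singleton_iff, not_or]
    exact ⟨(w6_x_ne hW (by omega)).symm, hh3.1.symm, hv2.symm, hh5.1.symm,
      (w6_x_ne hW (by omega)).symm⟩
  obtain ⟨z, hz, hz'⟩ := hcr _ _ hP hQ xP xQ (by simp) (by simp) (by simp) (by simp)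
  have uc : u ≠ c := hc.cu.ne'
  have vc : v ≠ c := hc.cv.ne'
  obtain ⟨o0, o1, o2⟩ := w6_opp hW hc.ne hc.out
  have c3 : ¬ G.Adj c (t 3) := o0 hc.ca
  have c5 : ¬ G.Adj c (t 5) := o2 hc.cd
  have v1 : ¬ G.Adj v (t 1) := not_t1 hW hc hK.mv vc
  have pv : ¬ G.Adj v p := bad_cn hB hp
  have step : ∀ g s : V, Cn G x v s g → ¬ G.Adj c s → c ≠ s → z = g → False := by
    intro g s hg cs cs' e
    subst e
    simp only [Set.mem_insert_iff, Set.mem_singleton_iff] at hz
    rcases hz with rfl | rfl | rfl | rfl | rfl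
    · exact v1 hg.2.1
    · rcases hg.2.2 with e | e
      · exact cs' e
      · exact cs e
    · exact hK.auv hg.2.1.symm
    · exact pv hg.2.1
    · exact v4 hg.2.1
  have notin : ∀ s : V, s ≠ t 1 → s ≠ c → s ≠ u → s ≠ t 4 → z = s → p = s := by
    rintro s h1 h2 h3 h4 rfl
    simp only [Set.mem_insert_iff, Set.mem_singleton_iff] at hz
    rcases hz with e | e | e | e | e
    · exact absurd e h1
    · exact absurd e h2
    · exact absurd e h3
    · exact e.symm
    · exact absurd e h4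
  rw [Set.mem_insert_iff, Set.mem_insert_iff, Set.mem_insert_iff, Set.mem_insert_iff,
    Set.mem_singleton_iff] at hz'
  rcases hz' with e | e | e | e | e
  · left
    have := notin (t 3) (w6_t_ne hW (by omega) (by omega) (by omega))
      (ne_t_of_not_D hW hc.out (by omega)).symm (ne_t_of_not_D hW huD (by omega)).symm
      (w6_t_ne hW (by omega) (by omega) (by omega)) e
    rw [← this]
    exact hp.2.1
  · exact (step h3 (t 3) hh3 c3 (ne_t_of_not_D hW hc.out (by omega)) e).elim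
  · have := notin v (ne_t_of_not_D hW hvD (by omega)) vc hK.nuv.symm
      (ne_t_of_not_D hW hvD (by omega)) e
    rw [this] at hp
    exact absurd hp.2.1 hK.auv
  · exact (step h5 (t 5) hh5 c5 (ne_t_of_not_D hW hc.out (by omega)) e).elim
  · right
    have := notin (t 5) (w6_t_ne hW (by omega) (by omega) (by omega))
      (ne_t_of_not_D hW hc.out (by omega)).symm (ne_t_of_not_D hW huD (by omega)).symm
      (w6_t_ne hW (by omega) (by omega) (by omega)) e
    rw [← this]
    exact hp.2.1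

/-- the hub `h` of `u`, `v` seen from `t 3` and `t 5` -/
lemma hub35 {u v c g h : V} (hK : K6 G R x t u v) (hc : Hub G R x u v c (t 0) (t 1) (t 2))
    (hB : Bad G x u v (t 4)) (u3 : G.Adj u (t 3)) (v5 : G.Adj v (t 5))
    (hg : Cn G x u (t 5) g) (hh : Cn G x v (t 3) h) : g = h := by
  by_contra hgh
  have hW := hK.toW6
  obtain ⟨hu1, hu2, hu3⟩ := mem_U.1 hK.mu
  obtain ⟨hv1, hv2, hv3⟩ := mem_U.1 hK.mv
  have huD := U_not_D hK.mu
  have hvD := U_not_D hK.mv
  have uc : u ≠ c := hc.cu.ne'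
  have vc : v ≠ c := hc.cv.ne'
  have u5 : ¬ G.Adj u (t 5) := fun e => hB (t 5) (w6_x_ne hW (by omega)) e v5 (Or.inr hK.c45.symm)
  have v3 : ¬ G.Adj v (t 3) := fun e => hB (t 3) (w6_x_ne hW (by omega)) u3 e (Or.inr hK.c43.symm)
  obtain ⟨o0, o1, o2⟩ := w6_opp hW hc.ne hc.out
  have c3 : ¬ G.Adj c (t 3) := o0 hc.ca
  have c5 : ¬ G.Adj c (t 5) := o2 hc.cd
  have n35 : ¬ G.Adj (t 3) (t 5) := w6_nadj hW (by omega) (by omega) (by omega) (by omega)
  have g5 : G.Adj g (t 5) := by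
    rcases hg.2.2 with e | e
    · exact absurd (e ▸ hg.2.1) u5
    · exact e
  have h3 : G.Adj h (t 3) := by
    rcases hh.2.2 with e | e
    · exact absurd (e ▸ hh.2.1) v3
    · exact e
  have x1 : G.Adj x (t 1) := (mem_D.1 (w6_t_mem hW (by omega))).2
  have x3 : G.Adj x (t 3) := (mem_D.1 (w6_t_mem hW (by omega))).2
  have x5 : G.Adj x (t 5) := (mem_D.1 (w6_t_mem hW (by omega))).2
  have d1 : x ≠ u := hu2.symm
  have d2 : x ≠ v := hv2.symm
  have d3 : x ≠ c := hc.ne.symm
  have d4 : x ≠ t 1 := x1.ne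
  have d5 : x ≠ t 3 := x3.ne
  have d6 : x ≠ t 5 := x5.ne
  have d7 : x ≠ g := hg.1.symm
  have d8 : x ≠ h := hh.1.symm
  have d9 : u ≠ v := hK.nuv
  have d10 : u ≠ h := by
    rintro rfl
    exact hK.auv hh.2.1.symm
  have d11 : g ≠ v := by
    rintro rfl
    exact hK.auv hg.2.1
  have d12 : u ≠ t 1 := ne_t_of_not_D hW huD (by omega)
  have d13 : u ≠ t 3 := ne_t_of_not_D hW huD (by omega)
  have d14 : u ≠ t 5 := ne_t_of_not_D hW huD (by omega)
  have d15 : v ≠ t 1 := ne_t_of_not_D hW hvD (by omega)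
  have d16 : v ≠ t 3 := ne_t_of_not_D hW hvD (by omega)
  have d17 : v ≠ t 5 := ne_t_of_not_D hW hvD (by omega)
  have d18 : c ≠ t 1 := ne_t_of_not_D hW hc.out (by omega)
  have d19 : c ≠ t 3 := ne_t_of_not_D hW hc.out (by omega)
  have d20 : c ≠ t 5 := ne_t_of_not_D hW hc.out (by omega)
  have d21 : t 1 ≠ t 3 := w6_t_ne hW (by omega) (by omega) (by omega)
  have d22 : t 1 ≠ t 5 := w6_t_ne hW (by omega) (by omega) (by omega)
  have d23 : t 3 ≠ t 5 := w6_t_ne hW (by omega) (by omega) (by omega)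
  have d24 : g ≠ c := by
    rintro rfl
    exact c5 g5
  have d25 : g ≠ t 1 := by
    rintro rfl
    exact not_t1 hW hc hK.mu uc hg.2.1
  have d26 : g ≠ t 3 := by
    rintro rfl
    exact n35 g5
  have d27 : g ≠ t 5 := g5.ne
  have d28 : h ≠ c := by
    rintro rfl
    exact c3 h3
  have d29 : h ≠ t 1 := by
    rintro rfl
    exact not_t1 hW hc hK.mv vc hh.2.1
  have d30 : h ≠ t 3 := h3.ne
  have d31 : h ≠ t 5 := by
    rintro rfl
    exact n35 h3.symm
  refine hW.s6.lf.pg.k33 (hasMinor_k33 ![{x}, {u, g}, {v, h}] ![{c, t 1}, {t 3}, {t 5}]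
    ?_ ?_ ?_ ?_ ?_ ?_)
  · intro i
    fin_cases i
    · exact con_single x
    · exact con_pair (Or.inr hg.2.1)
    · exact con_pair (Or.inr hh.2.1)
  · intro i
    fin_cases i
    · exact con_pair (Or.inr hc.cb)
    · exact con_single _
    · exact con_single _
  · intro i j hij
    rw [Set.disjoint_left]
    fin_cases i <;> fin_cases j <;> simp only [Fin.reduceFinMk, Fin.zero_eta, Fin.mk_one,
      Fin.isValue, Fin.reduceLT, lt_self_iff_false, Fin.not_lt_zero, Matrix.cons_val,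
      Matrix.cons_val_zero, Matrix.cons_val_one, Set.mem_insert_iff, Set.mem_singleton_iff,
      forall_eq_or_imp, forall_eq, not_or] at hij ⊢
    · exact ⟨d1, d7⟩
    · exact ⟨d2, d8⟩
    · exact ⟨⟨d9, d10⟩, d11, hgh⟩
  · intro i j hij
    rw [Set.disjoint_left]
    fin_cases i <;> fin_cases j <;> simp only [Fin.reduceFinMk, Fin.zero_eta, Fin.mk_one,
      Fin.isValue, Fin.reduceLT, lt_self_iff_false, Fin.not_lt_zero, Matrix.cons_val,
      Matrix.cons_val_zero, Matrix.cons_val_one, Set.mem_insert_iff, Set.mem_singleton_iff,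
      forall_eq_or_imp, forall_eq, not_or] at hij ⊢
    · exact ⟨d19, d21⟩
    · exact ⟨d20, d22⟩
    · exact d23
  · intro i j
    rw [Set.disjoint_left]
    fin_cases i <;> fin_cases j <;> simp only [Fin.reduceFinMk, Fin.zero_eta, Fin.mk_one,
      Fin.isValue, Matrix.cons_val,
      Matrix.cons_val_zero, Matrix.cons_val_one, Set.mem_insert_iff, Set.mem_singleton_iff,
      forall_eq_or_imp, forall_eq, not_or]
    · exact ⟨d3, d4⟩
    · exact d5
    · exact d6
    · exact ⟨⟨uc, d12⟩, d24, d25⟩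
    · exact ⟨d13, d26⟩
    · exact ⟨d14, d27⟩
    · exact ⟨⟨vc, d15⟩, d28, d29⟩
    · exact ⟨d16, d30⟩
    · exact ⟨d17, d31⟩
  · intro i j
    fin_cases i <;> fin_cases j
    · exact ⟨x, by simp, t 1, by simp, x1⟩
    · exact ⟨x, by simp, t 3, by simp, x3⟩
    · exact ⟨x, by simp, t 5, by simp, x5⟩
    · exact ⟨u, by simp, c, by simp, hc.cu.symm⟩
    · exact ⟨u, by simp, t 3, by simp, u3⟩
    · exact ⟨g, by simp, t 5, by simp, g5⟩
    · exact ⟨v, by simp, c, by simp, hc.cv.symm⟩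
    · exact ⟨h, by simp, t 3, by simp, h3⟩
    · exact ⟨v, by simp, t 5, by simp, v5⟩

/-- the main case: `u ~ t 3`, `v ~ t 5` -/
lemma main {u v c : V} (hK : K6 G R x t u v) (hc : Hub G R x u v c (t 0) (t 1) (t 2))
    (hB : Bad G x u v (t 4)) (u3 : G.Adj u (t 3)) (v5 : G.Adj v (t 5)) : False := by
  have hW := hK.toW6
  obtain ⟨hu1, hu2, hu3⟩ := mem_U.1 hK.mu
  obtain ⟨hv1, hv2, hv3⟩ := mem_U.1 hK.mv
  have huD := U_not_D hK.mu
  have hvD := U_not_D hK.mv
  have uc : u ≠ c := hc.cu.ne'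
  have vc : v ≠ c := hc.cv.ne'
  have v4 := not_t4 hK hc hB
  have u4 := not_t4 (k6_swap hK) (hub_swap hc) (bad_swap hB)
  have u5 : ¬ G.Adj u (t 5) := fun e => hB (t 5) (w6_x_ne hW (by omega)) e v5 (Or.inr hK.c45.symm)
  have v3 : ¬ G.Adj v (t 3) := fun e => hB (t 3) (w6_x_ne hW (by omega)) u3 e (Or.inr hK.c43.symm)
  obtain ⟨g, hg⟩ := cn_exists hW.s6.lf hK.mu (w6_t_mem hW (i := 5) (by omega))
  obtain ⟨h, hh⟩ := cn_exists hW.s6.lf hK.mv (w6_t_mem hW (i := 3) (by omega))
  have hgh := hub35 hK hc hB u3 v5 hg hh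
  subst hgh
  have g5 : G.Adj g (t 5) := by
    rcases hg.2.2 with e | e
    · exact absurd (e ▸ hg.2.1) u5
    · exact e
  have g3 : G.Adj g (t 3) := by
    rcases hh.2.2 with e | e
    · exact absurd (e ▸ hh.2.1) v3
    · exact e
  have g4 : ¬ (g = t 4 ∨ G.Adj g (t 4)) := hB g hg.1 hg.2.1 hh.2.1
  rw [not_or] at g4
  have gD : g ∉ D G R x := by
    intro hgD
    obtain ⟨i, hi, rfl⟩ := hW.circ.all g hgD
    have e3 := hW.adj i hi 3 (by omega) g3
    have e5 := hW.adj i hi 5 (by omega) g5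
    have : i = 4 := by omega
    subst this
    exact g4.1 rfl
  obtain ⟨w, hw, hwB⟩ := exists_w hW ((U G R x).filter (fun w => G.Adj c w) ∪ {c, g}) (by
      have h1 := filt3 hW (c := c) (i := 0) (j := 1) (k := 2) (by omega) (by omega) (by omega)
        (by omega) (by omega) (by omega) hc.ca hc.cb hc.cd
      have h3 := Finset.card_union_le ((U G R x).filter (fun w => G.Adj c w)) {c, g}
      have h5 : ({c, g} : Finset V).card ≤ 2 := Finset.card_le_two
      omega)
  simp only [Finset.mem_union, Finset.mem_filter, Finset.mem_insert, Finset.mem_singleton,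
    not_or, not_and] at hwB
  obtain ⟨hwc, wc, wg⟩ := hwB
  have nwc : ¬ G.Adj w c := fun h => hwc hw h.symm
  have wu : w ≠ u := by
    rintro rfl
    exact nwc hc.cu.symm
  have wv : w ≠ v := by
    rintro rfl
    exact nwc hc.cv.symm
  obtain ⟨hw1, hw2, hw3⟩ := mem_U.1 hw
  have hwD := U_not_D hw
  obtain ⟨o0, o1, o2⟩ := w6_opp hW hw2 hwD
  have i1 := (iso1 hW hc.ne hc.out hc.ca hc.cd).2 w hw wc
  have i4 := (iso4 hW hg.1 gD g3 g5).2 w hw wg
  have j1 : G.Adj w (t 0) ∨ G.Adj w (t 2) := by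
    rcases i1 with h | h | h
    · exact Or.inl h
    · exact Or.inr h
    · exact absurd h.1 nwc
  have j4 : G.Adj w (t 3) ∨ G.Adj w (t 5) := by
    rcases i4 with h | h | h
    · exact Or.inl h
    · exact Or.inr h
    · exact absurd h.2 g4.2
  have hcr : Cr G x (t 0) (t 2) (t 3) (t 5) := hW.circ.cr 0 2 3 5 (by omega) (by omega) (by omega)
    (by omega)
  have n02 : ¬ G.Adj (t 0) (t 2) := w6_nadj hW (by omega) (by omega) (by omega) (by omega)
  have x0 := w6_x_ne hW (i := 0) (by omega)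
  have x2 := w6_x_ne hW (i := 2) (by omega)
  have x3 := w6_x_ne hW (i := 3) (by omega)
  have x5 := w6_x_ne hW (i := 5) (by omega)
  have T : ∀ i < 6, ∀ j < 6, i ≠ j → t i ≠ t j := fun i hi j hj hij => w6_t_ne hW hi hj hij
  have Nw : ∀ i < 6, w ≠ t i := fun i hi => ne_t_of_not_D hW hwD hi
  have Nu : ∀ i < 6, t i ≠ u := fun i hi => (ne_t_of_not_D hW huD hi).symm
  have Nv : ∀ i < 6, t i ≠ v := fun i hi => (ne_t_of_not_D hW hvD hi).symm
  have Nc : ∀ i < 6, t i ≠ c := fun i hi => (ne_t_of_not_D hW hc.out hi).symm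
  have Ng : ∀ i < 6, t i ≠ g := fun i hi => (ne_t_of_not_D hW gD hi).symm
  have gc : g ≠ c := by
    rintro rfl
    exact (w6_opp hW hc.ne hc.out).1 hc.ca g3
  by_cases h0 : G.Adj w (t 0)
  · have h3 : ¬ G.Adj w (t 3) := o0 h0
    have h5 : G.Adj w (t 5) := j4.resolve_left h3
    have h2 : ¬ G.Adj w (t 2) := fun h => o2 h h5
    obtain ⟨k, hk⟩ := cn_exists hW.s6.lf hw (w6_t_mem hW (i := 2) (by omega))
    have hcr' : Cr G x (t 2) (t 0) (t 5) (t 3) := cr_exch hcr
    have k0 : k ≠ t 0 := by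
      rintro rfl
      rcases hk.2.2 with e | e
      · exact T 0 (by omega) 2 (by omega) (by omega) e
      · exact n02 e
    have kc : k ≠ c := by
      rintro rfl
      exact nwc hk.2.1
    have k3 : k ≠ t 3 := by
      rintro rfl
      exact h3 hk.2.1
    have e1 : k ∈ ({t 0, c, u, t 3} : Set V) := by
      refine cross hcr' (con_cons (Or.inr hc.ca) (con_cons (Or.inr hc.cu.symm)
        (con_pair (Or.inr u3)))) ?_ (by simp) (by simp) ?_ ?_ ?_ hk h5 x2 x5 hw2 <;>
      simp only [Set.mem_insert_iff, Set.mem_singleton_iff, not_or]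
      · exact ⟨x0.symm, hc.ne.symm, hu2.symm, x3.symm⟩
      · exact ⟨T 2 (by omega) 0 (by omega) (by omega), Nc 2 (by omega), Nu 2 (by omega),
          T 2 (by omega) 3 (by omega) (by omega)⟩
      · exact ⟨T 5 (by omega) 0 (by omega) (by omega), Nc 5 (by omega), Nu 5 (by omega),
          T 5 (by omega) 3 (by omega) (by omega)⟩
      · exact ⟨Nw 0 (by omega), wc, wu, Nw 3 (by omega)⟩
    have e2 : k ∈ ({t 0, c, v, g, t 3} : Set V) := by
      refine cross hcr' (con_cons (Or.inr hc.ca) (con_cons (Or.inr hc.cv.symm)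
        (con_cons (Or.inr hh.2.1.symm) (con_pair (Or.inr g3))))) ?_ (by simp) (by simp) ?_ ?_ ?_
        hk h5 x2 x5 hw2 <;>
      simp only [Set.mem_insert_iff, Set.mem_singleton_iff, not_or]
      · exact ⟨x0.symm, hc.ne.symm, hv2.symm, hg.1.symm, x3.symm⟩
      · exact ⟨T 2 (by omega) 0 (by omega) (by omega), Nc 2 (by omega), Nv 2 (by omega),
          Ng 2 (by omega), T 2 (by omega) 3 (by omega) (by omega)⟩
      · exact ⟨T 5 (by omega) 0 (by omega) (by omega), Nc 5 (by omega), Nv 5 (by omega),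
          Ng 5 (by omega), T 5 (by omega) 3 (by omega) (by omega)⟩
      · exact ⟨Nw 0 (by omega), wc, wv, wg, Nw 3 (by omega)⟩
    simp only [Set.mem_insert_iff, Set.mem_singleton_iff, k0, kc, k3, or_false, false_or] at e1 e2
    subst e1
    rcases e2 with e | e
    · exact hK.nuv e
    · exact hg.2.1.ne e
  · have h2 : G.Adj w (t 2) := j1.resolve_left h0
    have h5 : ¬ G.Adj w (t 5) := o2 h2
    have h3 : G.Adj w (t 3) := j4.resolve_right h5
    obtain ⟨k, hk⟩ := cn_exists hW.s6.lf hw (w6_t_mem hW (i := 0) (by omega))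
    have k0 : k ≠ t 2 := by
      rintro rfl
      rcases hk.2.2 with e | e
      · exact T 2 (by omega) 0 (by omega) (by omega) e
      · exact n02 e.symm
    have kc : k ≠ c := by
      rintro rfl
      exact nwc hk.2.1
    have k3 : k ≠ t 5 := by
      rintro rfl
      exact h5 hk.2.1
    have e1 : k ∈ ({t 2, c, v, t 5} : Set V) := by
      refine cross hcr (con_cons (Or.inr hc.cd) (con_cons (Or.inr hc.cv.symm)
        (con_pair (Or.inr v5)))) ?_ (by simp) (by simp) ?_ ?_ ?_ hk h3 x0 x3 hw2 <;>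
      simp only [Set.mem_insert_iff, Set.mem_singleton_iff, not_or]
      · exact ⟨x2.symm, hc.ne.symm, hv2.symm, x5.symm⟩
      · exact ⟨T 0 (by omega) 2 (by omega) (by omega), Nc 0 (by omega), Nv 0 (by omega),
          T 0 (by omega) 5 (by omega) (by omega)⟩
      · exact ⟨T 3 (by omega) 2 (by omega) (by omega), Nc 3 (by omega), Nv 3 (by omega),
          T 3 (by omega) 5 (by omega) (by omega)⟩
      · exact ⟨Nw 2 (by omega), wc, wv, Nw 5 (by omega)⟩
    have e2 : k ∈ ({t 2, c, u, g, t 5} : Set V) := by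
      refine cross hcr (con_cons (Or.inr hc.cd) (con_cons (Or.inr hc.cu.symm)
        (con_cons (Or.inr hg.2.1.symm) (con_pair (Or.inr g5))))) ?_ (by simp) (by simp) ?_ ?_ ?_
        hk h3 x0 x3 hw2 <;>
      simp only [Set.mem_insert_iff, Set.mem_singleton_iff, not_or]
      · exact ⟨x2.symm, hc.ne.symm, hu2.symm, hg.1.symm, x5.symm⟩
      · exact ⟨T 0 (by omega) 2 (by omega) (by omega), Nc 0 (by omega), Nu 0 (by omega),
          Ng 0 (by omega), T 0 (by omega) 5 (by omega) (by omega)⟩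
      · exact ⟨T 3 (by omega) 2 (by omega) (by omega), Nc 3 (by omega), Nu 3 (by omega),
          Ng 3 (by omega), T 3 (by omega) 5 (by omega) (by omega)⟩
      · exact ⟨Nw 2 (by omega), wc, wu, wg, Nw 5 (by omega)⟩
    simp only [Set.mem_insert_iff, Set.mem_singleton_iff, k0, kc, k3, or_false, false_or] at e1 e2
    subst e1
    rcases e2 with e | e
    · exact hK.nuv e.symm
    · exact hh.2.1.ne e

/-- K6E: one hub, the other centre bad -/
theorem k6e : K6EStmt := by
  intro V G R x t u v c hK hc hB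
  have hW := hK.toW6
  have hu := t3_or_t5 hK hc hB
  have hv := t3_or_t5 (k6_swap hK) (hub_swap hc) (bad_swap hB)
  rcases hu with u3 | u5
  · rcases hv with v3 | v5
    · exact hB (t 3) (w6_x_ne hW (by omega)) u3 v3 (Or.inr hK.c43.symm)
    · exact main hK hc hB u3 v5
  · rcases hv with v3 | v5
    · exact main (k6_swap hK) (hub_swap hc) (bad_swap hB) v3 u5
    · exact hB (t 5) (w6_x_ne hW (by omega)) u5 v5 (Or.inr hK.c45.symm)

end Pool.Agent.H33.RCQ.K6E
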